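import Pool.Agent.W886.VL.Stm

/-!
VL-FIN of helper886's project on MP_cba9f6_lc: a complete theory with a finite model is
categorical.
-/

namespace Pool.Agent.W63.VLFIN

open SOCat Pool.Agent.W886.VL

variable {τ : Voc}

/-- predicates of a structure and an assignment which are given by one formula -/
def SDf (P : ∀ (M : Type), Str τ M → (ℕ → M) → Prop) : Prop :=
  ∃ φ : SO τ, ∀ (M : Type) (S : Str τ M) (v : ℕ → M) (W : Asg M), φ.Sat S v W ↔ P M S v

namespace SDf

variable {P Q : ∀ (M : Type), Str τ M → (ℕ → M) → Prop}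

theorem congr (h : SDf P) (hPQ : ∀ M S v, P M S v ↔ Q M S v) : SDf Q := by
  obtain ⟨φ, hφ⟩ := h
  exact ⟨φ, fun M S v W => (hφ M S v W).trans (hPQ M S v)⟩

theorem eq (i j : ℕ) : SDf (τ := τ) (fun _ _ v => v i = v j) := ⟨.eq i j, fun _ _ _ _ => Iff.rfl⟩

theorem rel (R : Fin τ.nR) (xs : Fin (τ.aR R) → ℕ) :
    SDf (τ := τ) (fun _ S v => S.rel R (fun k => v (xs k))) := ⟨.rel R xs, fun _ _ _ _ => Iff.rfl⟩

theorem fn (f : Fin τ.nF) (xs : Fin (τ.aF f) → ℕ) (y : ℕ) :
    SDf (τ := τ) (fun _ S v => S.fn f (fun k => v (xs k)) = v y) :=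
  ⟨.fn f xs y, fun _ _ _ _ => Iff.rfl⟩

theorem not (h : SDf P) : SDf (fun M S v => ¬ P M S v) := by
  obtain ⟨φ, hφ⟩ := h
  exact ⟨.neg φ, fun M S v W => not_congr (hφ M S v W)⟩

theorem and (h : SDf P) (h' : SDf Q) : SDf (fun M S v => P M S v ∧ Q M S v) := by
  obtain ⟨φ, hφ⟩ := h
  obtain ⟨ψ, hψ⟩ := h'
  exact ⟨.and φ ψ, fun M S v W => and_congr (hφ M S v W) (hψ M S v W)⟩

theorem all (h : SDf P) (x : ℕ) : SDf (fun M S v => ∀ m : M, P M S (Function.update v x m)) := by
  obtain ⟨φ, hφ⟩ := h
  exact ⟨.all x φ, fun M S v W => forall_congr' fun m => hφ M S _ W⟩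

theorem ex (h : SDf P) (x : ℕ) : SDf (fun M S v => ∃ m : M, P M S (Function.update v x m)) := by
  refine (h.not.all x).not.congr fun M S v => ?_
  push Not
  rfl

theorem tr : SDf (τ := τ) (fun _ _ _ => True) :=
  (eq 0 0).congr fun _ _ _ => by simp

theorem fls : SDf (τ := τ) (fun _ _ _ => False) :=
  tr.not.congr fun _ _ _ => by simp

theorem const (p : Prop) : SDf (τ := τ) (fun _ _ _ => p) := by
  by_cases hp : p
  · exact tr.congr fun _ _ _ => by simp [hp]
  · exact fls.congr fun _ _ _ => by simp [hp]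

theorem iff (h : SDf P) (h' : SDf Q) : SDf (fun M S v => (P M S v ↔ Q M S v)) := by
  refine ((h.and h'.not).not.and (h'.and h.not).not).congr fun M S v => ?_
  tauto

theorem allFin {ι : Type} [Finite ι] {P : ι → ∀ (M : Type), Str τ M → (ℕ → M) → Prop}
    (h : ∀ i, SDf (P i)) : SDf (fun M S v => ∀ i, P i M S v) := by
  classical
  have : Fintype ι := Fintype.ofFinite ι
  have key : ∀ s : Finset ι, SDf (fun M S v => ∀ i ∈ s, P i M S v) := by
    intro s
    induction s using Finset.induction_on with
    | empty => exact tr.congr fun _ _ _ => by simp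
    | insert a s ha ih =>
      refine ((h a).and ih).congr fun M S v => ?_
      rw [Finset.forall_mem_insert]
  exact (key Finset.univ).congr fun _ _ _ => by simp

theorem exFin {ι : Type} [Finite ι] {P : ι → ∀ (M : Type), Str τ M → (ℕ → M) → Prop}
    (h : ∀ i, SDf (P i)) : SDf (fun M S v => ∃ i, P i M S v) := by
  refine (allFin fun i => (h i).not).not.congr fun M S v => ?_
  push Not
  rfl

/-- quantification over the first `n` variables -/
theorem exBlock (h : SDf P) (n : ℕ) :
    SDf (fun M S v => ∃ w : ℕ → M, P M S (fun j => if j < n then w j else v j)) := by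
  induction n with
  | zero =>
    refine h.congr fun M S v => ?_
    simp only [Nat.not_lt_zero, if_false]
    exact ⟨fun hP => ⟨v, hP⟩, fun ⟨_, hP⟩ => hP⟩
  | succ n ih =>
    refine (ih.ex n).congr fun M S v => ?_
    constructor
    · rintro ⟨m, w, hw⟩
      refine ⟨Function.update w n m, ?_⟩
      have e : (fun j => if j < n then w j else Function.update v n m j) =
          (fun j => if j < n + 1 then Function.update w n m j else v j) := by
        funext j
        by_cases h1 : j < n
        · have h2 : j ≠ n := by omega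
          rw [if_pos h1, if_pos (by omega), Function.update_of_ne h2]
        · by_cases h2 : j = n
          · subst h2
            rw [if_neg h1, if_pos (by omega), Function.update_self, Function.update_self]
          · rw [if_neg h1, if_neg (by omega), Function.update_of_ne h2]
      exact e ▸ hw
    · rintro ⟨w, hw⟩
      refine ⟨w n, w, ?_⟩
      have e : (fun j => if j < n + 1 then w j else v j) =
          (fun j => if j < n then w j else Function.update v n (w n) j) := by
        funext j
        by_cases h1 : j < n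
        · rw [if_pos h1, if_pos (by omega)]
        · by_cases h2 : j = n
          · subst h2
            rw [if_neg h1, if_pos (by omega), Function.update_self]
          · rw [if_neg h1, if_neg (by omega), Function.update_of_ne h2]
      exact e ▸ hw

end SDf

/-- the diagram of a finite structure -/
def Diag {M : Type} {n : ℕ} (S : Str τ M) (e : M ≃ Fin n) (N : Type) (S' : Str τ N)
    (v : ℕ → N) : Prop :=
  (∀ p : Fin n × Fin n, p.1 = p.2 ∨ v p.1 ≠ v p.2) ∧
  (∀ y : N, ∃ i : Fin n, v i = y) ∧
  (∀ (R : Fin τ.nR) (xs : Fin (τ.aR R) → Fin n),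
    (S'.rel R (fun k => v (xs k)) ↔ S.rel R (fun k => e.symm (xs k)))) ∧
  ∀ (f : Fin τ.nF) (xs : Fin (τ.aF f) → Fin n),
    S'.fn f (fun k => v (xs k)) = v (e (S.fn f (fun k => e.symm (xs k))))

theorem sdf_diag {M : Type} {n : ℕ} (S : Str τ M) (e : M ≃ Fin n) :
    SDf (fun N S' v => Diag S e N S' v) := by
  refine SDf.and (SDf.allFin fun p => ?_) (SDf.and ?_ (SDf.and ?_ ?_))
  · by_cases hp : p.1 = p.2
    · exact SDf.tr.congr fun _ _ _ => by simp [hp]
    · exact (SDf.eq (p.1 : ℕ) (p.2 : ℕ)).not.congr fun _ _ _ => by simp [hp]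
  · refine ((SDf.exFin (ι := Fin n) fun i => SDf.eq (i : ℕ) n).all n).congr fun N S' v => ?_
    refine forall_congr' fun y => exists_congr fun i => ?_
    have hi : (i : ℕ) ≠ n := i.2.ne
    rw [Function.update_of_ne hi, Function.update_self]
  · refine SDf.allFin fun R => SDf.allFin fun xs => ?_
    exact (SDf.rel R fun k => (xs k : ℕ)).iff (SDf.const _)
  · refine SDf.allFin fun f => SDf.allFin fun xs => ?_
    exact SDf.fn f (fun k => (xs k : ℕ)) _

theorem isom_iff {M : Type} {n : ℕ} (S : Str τ M) (e : M ≃ Fin n) (N : Type) (S' : Str τ N)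
    (v : ℕ → N) :
    (∃ w : ℕ → N, Diag S e N S' (fun j => if j < n then w j else v j)) ↔ Isom S S' := by
  constructor
  · rintro ⟨w, h1, h2, h3, h4⟩
    have hw : ∀ i : Fin n, (fun j : ℕ => if j < n then w j else v j) (i : ℕ) = w i := fun i =>
      if_pos i.2
    simp only [hw] at h1 h2 h3 h4
    have hb : Function.Bijective (fun m : M => w (e m)) := by
      constructor
      · intro m m' hm
        apply e.injective
        by_contra hne
        rcases h1 (e m, e m') with h | h
        · exact hne h
        · exact h hm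
      · intro y
        obtain ⟨i, hi⟩ := h2 y
        exact ⟨e.symm i, by simp only [Equiv.apply_symm_apply]; exact hi⟩
    refine ⟨Equiv.ofBijective _ hb, ?_, ?_⟩
    · intro R xs
      have h5 := h3 R (fun k => e (xs k))
      simp only [Equiv.symm_apply_apply] at h5
      exact h5.symm
    · intro f xs
      have h5 := h4 f (fun k => e (xs k))
      simp only [Equiv.symm_apply_apply] at h5
      exact h5.symm
  · rintro ⟨g, hR, hf⟩
    refine ⟨fun j => if h : j < n then g (e.symm ⟨j, h⟩) else v j, ?_⟩
    have hw : ∀ i : Fin n, (fun j : ℕ => if j < n then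
        (fun j => if h : j < n then g (e.symm ⟨j, h⟩) else v j) j else v j) (i : ℕ) =
        g (e.symm i) := by
      intro i
      simp only [i.2, if_true, dif_pos]
    refine ⟨?_, ?_, ?_, ?_⟩
    · intro p
      rw [hw, hw]
      by_cases hp : p.1 = p.2
      · exact Or.inl hp
      · exact Or.inr fun h => hp (e.symm.injective (g.injective h))
    · intro y
      refine ⟨e (g.symm y), ?_⟩
      rw [hw, Equiv.symm_apply_apply, Equiv.apply_symm_apply]
    · intro R xs
      simp only [hw]
      exact (hR R _).symm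
    · intro f xs
      simp only [hw]
      rw [← hf, Equiv.symm_apply_apply]

theorem isom_refl {M : Type} (S : Str τ M) : Isom S S :=
  ⟨Equiv.refl M, fun _ _ => Iff.rfl, fun _ _ => rfl⟩

theorem task : Pool.Agent.W886.VL.T_FIN := by
  intro τ T hT M N _ _ _ S S' hS hS'
  obtain ⟨n, ⟨e⟩⟩ := Finite.exists_equiv_fin M
  obtain ⟨χ, hχ⟩ := (sdf_diag S e).exBlock n
  have hχ' : ∀ (N : Type) (S' : Str τ N) (v : ℕ → N) (W : Asg N), χ.Sat S' v W ↔ Isom S S' :=
    fun N S' v W => (hχ N S' v W).trans (isom_iff S e N S' v)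
  have hsent : SO.IsSentence.{0} χ := by
    intro N S' v v' W W' h
    exact (hχ' N S' v' W').2 ((hχ' N S' v W).1 h)
  rcases hT χ hsent with h | h
  · have h1 := h N S' hS'
    obtain ⟨y⟩ := ‹Nonempty N›
    exact (hχ' N S' (fun _ => y) (fun _ _ _ => True)).1 (h1 _ _)
  · exfalso
    have h1 := h M S hS
    obtain ⟨y⟩ := ‹Nonempty M›
    exact h1 (fun _ => y) (fun _ _ _ => True) ((hχ' M S _ _).2 (isom_refl S))

end Pool.Agent.W63.VLFIN
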